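import Pool.Agent.R594.Star.Main
import Pool.Agent.R594.Star.Comb
import Pool.Agent.R594.Star.CH

/-!
# A star-Hurewicz Psi-space of cardinality at least `𝔟` (and at least `𝔡`)

* Some forcing notion forces the continuum hypothesis (and preserves `ω₁`).
* In ZFC + CH there is a ccc forcing notion `P` and a set `K` such that `P` forces that there is an
  almost disjoint family `A` indexed by `K` whose Psi-space is star-Hurewicz, while there is a
  dominating (hence unbounded) family of functions indexed by `K`, that is `𝔟 ≤ 𝔡 ≤ |A|`; moreover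
  there is a dominating family indexed by `ω₁`.

The forcing language is the one of `Pool.Agent.Helper126.Sus.Forc`: a sentence is the set of the
conditions which force it, `fnot`, `fand`, `fall` are the primitive connectives, `fimp`, `fex` are
defined from them classically; a name for a subset of a ground model set `X` is a map sending
`x : X` to a set of conditions, and `meets N` says that the generic filter meets `N`.
-/

set_option autoImplicit false

namespace Pool.Agent.Results.MP_b1d3ea_lc.LargeStarHurewicz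

open Cardinal Pool.Agent.Helper126.Sus.Forc Pool.Agent.R594.Star

open Pool.Agent.W876.Two.Gen (CardinalsPreserved)

/-- Q1: it is consistent that some Psi-space of cardinality at least `𝔟` (even at least `𝔡`) is
star-Hurewicz. -/
theorem result :
    (∃ (P : Type) (_ : Preorder P), Nonempty P ∧ ∀ p : P,
      p ∈ OmegaOnePreserved P ∧ p ∈ ContinuumHypothesis P) ∧
    ((∃ E : K1 → ℕ → ℕ, ∀ f : ℕ → ℕ, ∃ α, E α = f) ↔ (𝔠 : Cardinal.{0}) = ℵ₁) ∧
    ((𝔠 : Cardinal.{0}) = ℵ₁ →
      ∃ (P : Type) (_ : Preorder P) (K : Type), Nonempty P ∧ CCC P ∧ ℵ₁ ≤ #K ∧ ∀ p : P,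
        p ∈ CardinalsPreserved P ∧
        (p ∈ fex fun g : K1 → ℕ → ℕ → Set P => IsDominating g) ∧
        p ∈ fex fun A : K → ℕ → Set P => fand (IsAD A) (fand (StarHurewicz A)
          (fex fun g : K → ℕ → ℕ → Set P => fand (IsDominating g) (IsUnbounded g)))) := by
  refine ⟨exists_forcing_ch, ch_iff, fun hCH => ?_⟩
  obtain ⟨P, hP, h1, h2, h3⟩ := exists_forcing fun k σ δ => exists_tasks hCH k σ δ
  refine ⟨P, hP, Ix, h1, h2, mk_Ix, fun p => ⟨(h3 p).1, (h3 p).2.1, ?_⟩⟩
  rw [mem_fex]
  intro q hq
  obtain ⟨r, hr, A, h4, h5, -, h6⟩ := mem_fex.1 (h3 p).2.2 q hq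
  exact ⟨r, hr, A, h4, h5, h6⟩

end Pool.Agent.Results.MP_b1d3ea_lc.LargeStarHurewicz
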